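import Pool.Agent.LE.StmtsQH
import Pool.Agent.Helper89_LQD.TOR
import Pool.Agent.Helper28_LSP.VDC

/-!
# Squad LQF, row JCB: the Bessel function on the cyclic group
-/

set_option autoImplicit false
set_option linter.unusedSectionVars false

open MeasureTheory Set Complex

noncomputable section

namespace Pool.Agent.LE.QF.H32

open Pool.Agent.LE.H28V Pool.Agent.LE.QD Pool.Agent.LE.QD.H89

/-! ### the circle -/

/-- the first derivative test, negative second derivative -/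
theorem vdc1n {F F1 F2 : ℝ → ℝ} {a b lam : ℝ} (hab : a ≤ b)
    (hF : ∀ x ∈ Icc a b, HasDerivAt F (F1 x) x) (hF1 : ∀ x ∈ Icc a b, HasDerivAt F1 (F2 x) x)
    (hF2 : ContinuousOn F2 (Icc a b)) (hs : ∀ x ∈ Icc a b, F2 x ≤ 0) (hlam : 0 < lam)
    (h1 : ∀ x ∈ Icc a b, lam ≤ |F1 x|) :
    ‖∫ x in a..b, cexp (I * F x)‖ ≤ 4 / lam := by
  have h := vdc1 (F := fun x => -F x) (F1 := fun x => -F1 x) (F2 := fun x => -F2 x) hab
    (fun x hx => (hF x hx).fun_neg) (fun x hx => (hF1 x hx).fun_neg) hF2.neg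
    (fun x hx => by have := hs x hx; linarith) hlam (fun x hx => by rw [abs_neg]; exact h1 x hx)
  rw [← Complex.norm_conj, ← intervalIntegral.intervalIntegral_conj] at h
  have e : (fun x => (starRingEnd ℂ) (cexp (I * ((-F x : ℝ) : ℂ)))) = fun x => cexp (I * F x) := by
    funext x
    rw [← Complex.exp_conj, map_mul, conj_I, conj_ofReal]
    push_cast
    ring_nf
  rw [e] at h
  exact h

theorem half_le_cos {φ : ℝ} (h : |φ| ≤ Real.pi / 4) : 1 / 2 ≤ Real.cos φ := by
  have hpi := Real.pi_pos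
  have h1 : Real.cos (Real.pi / 3) ≤ Real.cos |φ| :=
    Real.cos_le_cos_of_nonneg_of_le_pi (abs_nonneg _) (by linarith) (by linarith)
  rw [Real.cos_abs, Real.cos_pi_div_three] at h1
  exact h1

theorem jb_le {t : ℝ} (ht : 1 ≤ t) : ‖jb t 0‖ ≤ 7 / Real.sqrt t := by
  have hpi := Real.pi_pos
  have hpi3 := Real.pi_gt_three
  have ht0 : 0 < t := by linarith
  have hst : 0 < Real.sqrt t := Real.sqrt_pos.2 ht0
  have hst1 : 1 ≤ Real.sqrt t := Real.one_le_sqrt.2 ht
  set F : ℝ → ℝ := fun θ => 2 * t * Real.cos θ with hF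
  set F1 : ℝ → ℝ := fun θ => -(2 * t * Real.sin θ) with hF1
  set F2 : ℝ → ℝ := fun θ => -(2 * t * Real.cos θ) with hF2
  have dF : ∀ x, HasDerivAt F (F1 x) x := by
    intro x
    refine ((Real.hasDerivAt_cos x).const_mul (2 * t)).congr_deriv ?_
    simp only [hF1]
    ring
  have dF1 : ∀ x, HasDerivAt F1 (F2 x) x := by
    intro x
    exact ((Real.hasDerivAt_sin x).const_mul (2 * t)).fun_neg
  have cF : Continuous F := continuous_iff_continuousAt.2 fun x => (dF x).continuousAt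
  have cF2 : Continuous F2 := by
    simp only [hF2]
    fun_prop
  have hlow : ∀ x φ : ℝ, |φ| ≤ Real.pi / 4 → Real.cos x = Real.cos φ → F2 x ≤ -t := by
    intro x φ hφ hx
    have h1 := half_le_cos hφ
    simp only [hF2]
    rw [hx]
    nlinarith
  have hhigh : ∀ x φ : ℝ, |φ| ≤ Real.pi / 4 → Real.cos x = -Real.cos φ → t ≤ F2 x := by
    intro x φ hφ hx
    have h1 := half_le_cos hφ
    simp only [hF2]
    rw [hx]
    nlinarith
  have hs1 : ∀ x φ : ℝ, |φ| ≤ Real.pi / 4 → (Real.sin x = Real.cos φ ∨ Real.sin x = -Real.cos φ) →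
      t ≤ |F1 x| := by
    intro x φ hφ hx
    have h1 := half_le_cos hφ
    have h2 : |F1 x| = 2 * t * Real.cos φ := by
      simp only [hF1]
      rcases hx with hx | hx
      · rw [hx, abs_neg, abs_of_nonneg (by nlinarith)]
      · rw [hx, mul_neg, neg_neg, abs_of_nonneg (by nlinarith)]
    rw [h2]
    nlinarith
  have I1 : ‖∫ x in (0 : ℝ)..(Real.pi / 4), cexp (I * F x)‖ ≤ 8 / Real.sqrt t := by
    refine vdc2n (by linarith) (fun x _ => dF x) (fun x _ => dF1 x) cF2.continuousOn ht0 ?_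
    intro x hx
    exact hlow x x (by rw [abs_of_nonneg hx.1]; exact hx.2) rfl
  have I2 : ‖∫ x in (Real.pi / 4)..(Real.pi / 2), cexp (I * F x)‖ ≤ 4 / t := by
    refine vdc1n (by linarith) (fun x _ => dF x) (fun x _ => dF1 x) cF2.continuousOn ?_ ht0 ?_
    · intro x hx
      have h1 : 0 ≤ Real.cos x := Real.cos_nonneg_of_mem_Icc ⟨by linarith [hx.1], hx.2⟩
      simp only [hF2]
      nlinarith
    · intro x hx
      refine hs1 x (Real.pi / 2 - x) ?_ (Or.inl (Real.cos_pi_div_two_sub x).symm)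
      rw [abs_le]
      constructor <;> linarith [hx.1, hx.2]
  have I3 : ‖∫ x in (Real.pi / 2)..(3 * Real.pi / 4), cexp (I * F x)‖ ≤ 4 / t := by
    refine vdc1 (by linarith) (fun x _ => dF x) (fun x _ => dF1 x) cF2.continuousOn ?_ ht0 ?_
    · intro x hx
      have h1 : Real.cos x ≤ 0 :=
        Real.cos_nonpos_of_pi_div_two_le_of_le hx.1 (by linarith [hx.2])
      simp only [hF2]
      nlinarith
    · intro x hx
      refine hs1 x (Real.pi / 2 - x) ?_ (Or.inl (Real.cos_pi_div_two_sub x).symm)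
      rw [abs_le]
      constructor <;> linarith [hx.1, hx.2]
  have I4 : ‖∫ x in (3 * Real.pi / 4)..(5 * Real.pi / 4), cexp (I * F x)‖ ≤ 8 / Real.sqrt t := by
    refine vdc2 (by linarith) (fun x _ => dF x) (fun x _ => dF1 x) cF2.continuousOn ht0 ?_
    intro x hx
    refine hhigh x (x - Real.pi) ?_ ?_
    · rw [abs_le]
      constructor <;> linarith [hx.1, hx.2]
    · rw [Real.cos_sub_pi, neg_neg]
  have hsn : ∀ x : ℝ, Real.sin x = -Real.cos (x - 3 * Real.pi / 2) := by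
    intro x
    have h1 : x - 3 * Real.pi / 2 = (x - Real.pi) - Real.pi / 2 := by ring
    rw [h1, Real.cos_sub_pi_div_two, Real.sin_sub_pi, neg_neg]
  have I5 : ‖∫ x in (5 * Real.pi / 4)..(3 * Real.pi / 2), cexp (I * F x)‖ ≤ 4 / t := by
    refine vdc1 (by linarith) (fun x _ => dF x) (fun x _ => dF1 x) cF2.continuousOn ?_ ht0 ?_
    · intro x hx
      have h1 : Real.cos x ≤ 0 :=
        Real.cos_nonpos_of_pi_div_two_le_of_le (by linarith [hx.1]) (by linarith [hx.2])
      simp only [hF2]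
      nlinarith
    · intro x hx
      refine hs1 x (x - 3 * Real.pi / 2) ?_ (Or.inr (hsn x))
      rw [abs_le]
      constructor <;> linarith [hx.1, hx.2]
  have I6 : ‖∫ x in (3 * Real.pi / 2)..(7 * Real.pi / 4), cexp (I * F x)‖ ≤ 4 / t := by
    refine vdc1n (by linarith) (fun x _ => dF x) (fun x _ => dF1 x) cF2.continuousOn ?_ ht0 ?_
    · intro x hx
      have h1 : 0 ≤ Real.cos (x - 2 * Real.pi) :=
        Real.cos_nonneg_of_mem_Icc ⟨by linarith [hx.1], by linarith [hx.2]⟩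
      rw [Real.cos_sub_two_pi] at h1
      simp only [hF2]
      nlinarith
    · intro x hx
      refine hs1 x (x - 3 * Real.pi / 2) ?_ (Or.inr (hsn x))
      rw [abs_le]
      constructor <;> linarith [hx.1, hx.2]
  have I7 : ‖∫ x in (7 * Real.pi / 4)..(2 * Real.pi), cexp (I * F x)‖ ≤ 8 / Real.sqrt t := by
    refine vdc2n (by linarith) (fun x _ => dF x) (fun x _ => dF1 x) cF2.continuousOn ht0 ?_
    intro x hx
    refine hlow x (x - 2 * Real.pi) ?_ ?_
    · rw [abs_le]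
      constructor <;> linarith [hx.1, hx.2]
    · rw [Real.cos_sub_two_pi]
  have hint : ∀ a b : ℝ, IntervalIntegrable (fun x => cexp (I * F x)) volume a b := by
    intro a b
    apply Continuous.intervalIntegrable
    exact Complex.continuous_exp.comp
      (continuous_const.mul (Complex.continuous_ofReal.comp cF))
  have hsum : ∫ x in (0 : ℝ)..(2 * Real.pi), cexp (I * F x)
      = (∫ x in (0 : ℝ)..(Real.pi / 4), cexp (I * F x))
      + (∫ x in (Real.pi / 4)..(Real.pi / 2), cexp (I * F x))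
      + (∫ x in (Real.pi / 2)..(3 * Real.pi / 4), cexp (I * F x))
      + (∫ x in (3 * Real.pi / 4)..(5 * Real.pi / 4), cexp (I * F x))
      + (∫ x in (5 * Real.pi / 4)..(3 * Real.pi / 2), cexp (I * F x))
      + (∫ x in (3 * Real.pi / 2)..(7 * Real.pi / 4), cexp (I * F x))
      + ∫ x in (7 * Real.pi / 4)..(2 * Real.pi), cexp (I * F x) := by
    rw [intervalIntegral.integral_add_adjacent_intervals (hint _ _) (hint _ _),
      intervalIntegral.integral_add_adjacent_intervals (hint _ _) (hint _ _),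
      intervalIntegral.integral_add_adjacent_intervals (hint _ _) (hint _ _),
      intervalIntegral.integral_add_adjacent_intervals (hint _ _) (hint _ _),
      intervalIntegral.integral_add_adjacent_intervals (hint _ _) (hint _ _),
      intervalIntegral.integral_add_adjacent_intervals (hint _ _) (hint _ _)]
  have h4t : 4 / t ≤ 4 / Real.sqrt t := by
    apply div_le_div_of_nonneg_left (by norm_num) hst
    calc Real.sqrt t = Real.sqrt t * 1 := (mul_one _).symm
      _ ≤ Real.sqrt t * Real.sqrt t := mul_le_mul_of_nonneg_left hst1 hst.le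
      _ = t := Real.mul_self_sqrt ht0.le
  have htot : ‖∫ x in (0 : ℝ)..(2 * Real.pi), cexp (I * F x)‖ ≤ 40 / Real.sqrt t := by
    rw [hsum]
    have n1 := norm_add_le ((∫ x in (0 : ℝ)..(Real.pi / 4), cexp (I * F x))
      + (∫ x in (Real.pi / 4)..(Real.pi / 2), cexp (I * F x))
      + (∫ x in (Real.pi / 2)..(3 * Real.pi / 4), cexp (I * F x))
      + (∫ x in (3 * Real.pi / 4)..(5 * Real.pi / 4), cexp (I * F x))
      + (∫ x in (5 * Real.pi / 4)..(3 * Real.pi / 2), cexp (I * F x))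
      + (∫ x in (3 * Real.pi / 2)..(7 * Real.pi / 4), cexp (I * F x)))
      (∫ x in (7 * Real.pi / 4)..(2 * Real.pi), cexp (I * F x))
    have n2 := norm_add_le ((∫ x in (0 : ℝ)..(Real.pi / 4), cexp (I * F x))
      + (∫ x in (Real.pi / 4)..(Real.pi / 2), cexp (I * F x))
      + (∫ x in (Real.pi / 2)..(3 * Real.pi / 4), cexp (I * F x))
      + (∫ x in (3 * Real.pi / 4)..(5 * Real.pi / 4), cexp (I * F x))
      + (∫ x in (5 * Real.pi / 4)..(3 * Real.pi / 2), cexp (I * F x)))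
      (∫ x in (3 * Real.pi / 2)..(7 * Real.pi / 4), cexp (I * F x))
    have n3 := norm_add_le ((∫ x in (0 : ℝ)..(Real.pi / 4), cexp (I * F x))
      + (∫ x in (Real.pi / 4)..(Real.pi / 2), cexp (I * F x))
      + (∫ x in (Real.pi / 2)..(3 * Real.pi / 4), cexp (I * F x))
      + (∫ x in (3 * Real.pi / 4)..(5 * Real.pi / 4), cexp (I * F x)))
      (∫ x in (5 * Real.pi / 4)..(3 * Real.pi / 2), cexp (I * F x))
    have n4 := norm_add_le ((∫ x in (0 : ℝ)..(Real.pi / 4), cexp (I * F x))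
      + (∫ x in (Real.pi / 4)..(Real.pi / 2), cexp (I * F x))
      + (∫ x in (Real.pi / 2)..(3 * Real.pi / 4), cexp (I * F x)))
      (∫ x in (3 * Real.pi / 4)..(5 * Real.pi / 4), cexp (I * F x))
    have n5 := norm_add_le ((∫ x in (0 : ℝ)..(Real.pi / 4), cexp (I * F x))
      + (∫ x in (Real.pi / 4)..(Real.pi / 2), cexp (I * F x)))
      (∫ x in (Real.pi / 2)..(3 * Real.pi / 4), cexp (I * F x))
    have n6 := norm_add_le (∫ x in (0 : ℝ)..(Real.pi / 4), cexp (I * F x))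
      (∫ x in (Real.pi / 4)..(Real.pi / 2), cexp (I * F x))
    have e40 : 40 / Real.sqrt t = 3 * (8 / Real.sqrt t) + 4 * (4 / Real.sqrt t) := by ring
    rw [e40]
    linarith
  have hj : jb t 0 = (∫ x in (0 : ℝ)..(2 * Real.pi), cexp (I * F x)) / ((2 * Real.pi : ℝ) : ℂ) := by
    unfold jb
    congr 1
    apply intervalIntegral.integral_congr
    intro θ _
    simp only [hF, Int.cast_zero, zero_mul, zero_add]
  rw [hj, norm_div, Complex.norm_real, Real.norm_eq_abs,
    abs_of_pos (by positivity : 0 < 2 * Real.pi), div_le_iff₀ (by positivity)]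
  refine htot.trans ?_
  rw [div_mul_eq_mul_div]
  apply div_le_div_of_nonneg_right _ hst.le
  linarith

/-! ### the power series -/

theorem exp_near (M : ℕ) [NeZero M] (x : ℂ) (hxn : ‖x‖ ≤ M / 20) (N : ℕ) (hN : (M : ℝ) / 2 ≤ N) :
    ‖exp x - ∑ m ∈ Finset.range N, x ^ m / (m.factorial : ℂ)‖ ≤
      4 * Real.exp (-((M : ℝ) / 4)) := by
  have hM : (0 : ℝ) < M := Nat.cast_pos.2 (NeZero.pos M)
  have h3 : ‖x‖ / N.succ ≤ 1 / 2 := by
    rw [div_le_iff₀ (by positivity)]
    push_cast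
    linarith
  refine (exp_bound' h3).trans ?_
  have h4 : ‖x‖ ^ N / (N.factorial : ℝ) ≤ Real.exp (-(N : ℝ)) * Real.exp (3 * ‖x‖) := by
    have h5 : (3 * ‖x‖) ^ N / (N.factorial : ℝ) ≤ Real.exp (3 * ‖x‖) :=
      Real.pow_div_factorial_le_exp (3 * ‖x‖) (by positivity) N
    have h6 : ‖x‖ ^ N / (N.factorial : ℝ) = ((3 : ℝ) ^ N)⁻¹ * ((3 * ‖x‖) ^ N / N.factorial) := by
      rw [mul_pow]
      field_simp
    rw [h6]
    refine mul_le_mul ?_ h5 (by positivity) (Real.exp_pos _).le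
    rw [Real.exp_neg, show (N : ℝ) = N * 1 by ring, Real.exp_nat_mul]
    refine inv_anti₀ (by positivity) ?_
    refine pow_le_pow_left₀ (Real.exp_pos 1).le ?_ N
    have := Real.exp_one_lt_d9
    linarith
  have h7 : Real.exp (-(N : ℝ)) * Real.exp (3 * ‖x‖) ≤ Real.exp (-((M : ℝ) / 4)) := by
    rw [← Real.exp_add]
    refine Real.exp_le_exp.2 ?_
    linarith
  have h8 := h4.trans h7
  have h9 := Real.exp_pos (-((M : ℝ) / 4))
  linarith

/-- the common value -/
def VV (t : ℝ) (N : ℕ) : ℂ :=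
  ∑ m ∈ Finset.range N, (I * (t : ℂ)) ^ m / (m.factorial : ℂ) *
    ∑ k ∈ Finset.range (m + 1), ((m.choose k : ℕ) : ℂ) *
      (if (0 : ℤ) + (2 * (k : ℤ) - m) = 0 then 1 else 0)

theorem jb_VV (M : ℕ) [NeZero M] (t : ℝ) (ht : |t| ≤ M / 40) :
    ‖jb t 0 - VV t M‖ ≤ 4 * Real.exp (-((M : ℝ) / 4)) := by
  have hM : 0 < M := NeZero.pos M
  have hMr : (0 : ℝ) < M := Nat.cast_pos.2 hM
  set δ : ℝ := 4 * Real.exp (-((M : ℝ) / 4)) with hδ
  set f : ℝ → ℂ := fun θ => exp (I * ((2 * t * Real.cos θ : ℝ) : ℂ)) with hf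
  have hfc : Continuous f := by
    rw [hf]
    fun_prop
  have hnear : ∀ θ, ‖f θ - ps t M θ‖ ≤ δ := fun θ => ps_near M t ht M (by linarith) θ
  have e2 : jb t 0 =
      (∫ θ in (0 : ℝ)..(2 * Real.pi), ej 0 θ * f θ) / ((2 * Real.pi : ℝ) : ℂ) := by
    unfold jb
    congr 1
    refine intervalIntegral.integral_congr fun θ _ => ?_
    show exp (I * (((0 : ℤ) * θ + 2 * t * Real.cos θ : ℝ) : ℂ)) =
      ej 0 θ * exp (I * ((2 * t * Real.cos θ : ℝ) : ℂ))
    unfold ej
    rw [← exp_add]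
    congr 1
    push_cast
    ring
  have hpi : (0 : ℝ) < 2 * Real.pi := by positivity
  have h0 : (∫ θ in (0 : ℝ)..(2 * Real.pi), ej 0 θ * f θ) -
      (∫ θ in (0 : ℝ)..(2 * Real.pi), ej 0 θ * ps t M θ) =
      ∫ θ in (0 : ℝ)..(2 * Real.pi), (ej 0 θ * f θ - ej 0 θ * ps t M θ) :=
    (intervalIntegral.integral_sub (((ej_cont _).mul hfc).intervalIntegrable _ _)
      (((ej_cont _).mul (ps_cont t M)).intervalIntegrable _ _)).symm
  have e5 : VV t M = (∫ θ in (0 : ℝ)..(2 * Real.pi), ej 0 θ * ps t M θ) /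
      ((2 * Real.pi : ℝ) : ℂ) := (psc t 0 M).symm
  rw [e2, e5, ← sub_div, h0, norm_div, norm_real,
    Real.norm_eq_abs, abs_of_pos hpi, div_le_iff₀ hpi]
  have := intervalIntegral.norm_integral_le_of_norm_le_const (a := 0) (b := 2 * Real.pi)
    (f := fun θ => ej 0 θ * f θ - ej 0 θ * ps t M θ) (C := δ)
    (fun θ _ => by rw [← mul_sub, norm_mul, ej_norm, one_mul]; exact hnear θ)
  rwa [sub_zero, abs_of_pos hpi] at this

theorem chr (M : ℕ) [NeZero M] (k : ZMod M) (j i : ℕ) :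
    (ZMod.stdAddChar k : ℂ) ^ j * ((starRingEnd ℂ) (ZMod.stdAddChar k : ℂ)) ^ i =
      ZMod.stdAddChar (k * ((j : ZMod M) - (i : ZMod M))) := by
  rw [← AddChar.map_neg_eq_conj, ← AddChar.map_nsmul_eq_pow, ← AddChar.map_nsmul_eq_pow,
    ← AddChar.map_add_eq_mul]
  congr 1
  rw [nsmul_eq_mul, nsmul_eq_mul]
  ring

theorem mean_pow (M : ℕ) [NeZero M] (a : ℂ) (m : ℕ) (hm : m < M) :
    (∑ k : ZMod M, (I * ((2 * (a * ZMod.stdAddChar k).re : ℝ) : ℂ)) ^ m) / (M : ℂ) =
      (I * ((‖a‖ : ℝ) : ℂ)) ^ m * ∑ k ∈ Finset.range (m + 1), ((m.choose k : ℕ) : ℂ) *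
        (if (0 : ℤ) + (2 * (k : ℤ) - m) = 0 then 1 else 0) := by
  have hM : (M : ℂ) ≠ 0 := Nat.cast_ne_zero.2 (NeZero.ne M)
  have h1 : ∀ k : ZMod M, (I * ((2 * (a * ZMod.stdAddChar k).re : ℝ) : ℂ)) ^ m =
      I ^ m * ∑ j ∈ Finset.range (m + 1), a ^ j * ((starRingEnd ℂ) a) ^ (m - j) *
        ((m.choose j : ℕ) : ℂ) * ZMod.stdAddChar (k * ((j : ZMod M) - ((m - j : ℕ) : ZMod M))) := by
    intro k
    rw [mul_pow, ← Complex.add_conj, add_pow]
    congr 1
    apply Finset.sum_congr rfl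
    intro j _
    rw [← chr, map_mul, mul_pow, mul_pow]
    ring
  rw [Finset.sum_congr rfl fun k _ => h1 k, ← Finset.mul_sum, Finset.sum_comm, mul_div_assoc,
    Finset.sum_div, mul_pow, mul_assoc (I ^ m)]
  congr 1
  rw [Finset.mul_sum]
  apply Finset.sum_congr rfl
  intro j hj
  rw [Finset.mem_range] at hj
  rw [← Finset.mul_sum, AddChar.sum_mulShift _ (ZMod.isPrimitive_stdAddChar M), ZMod.card,
    mul_div_assoc]
  by_cases h : 2 * j = m
  · have hmj : m - j = j := by omega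
    rw [hmj, sub_self, if_pos rfl, div_self hM, if_pos (by omega)]
    have h2 : a ^ j * (starRingEnd ℂ) a ^ j = ((‖a‖ : ℝ) : ℂ) ^ m := by
      rw [← mul_pow, Complex.mul_conj, Complex.normSq_eq_norm_sq, ← h, pow_mul]
      push_cast
      ring
    rw [h2]
    ring
  · rw [if_neg, if_neg (by omega)]
    · simp
    · intro h3
      rw [sub_eq_zero, ZMod.natCast_eq_natCast_iff', Nat.mod_eq_of_lt (by omega),
        Nat.mod_eq_of_lt (by omega)] at h3
      omega

theorem jc_VV (M : ℕ) [NeZero M] (a : ℂ) (ha : ‖a‖ ≤ M / 40) :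
    ‖jc M a - VV ‖a‖ M‖ ≤ 4 * Real.exp (-((M : ℝ) / 4)) := by
  have hM : 0 < M := NeZero.pos M
  have hMr : (0 : ℝ) < M := Nat.cast_pos.2 hM
  set δ : ℝ := 4 * Real.exp (-((M : ℝ) / 4)) with hδ
  set x : ZMod M → ℂ := fun k => I * ((2 * (a * ZMod.stdAddChar k).re : ℝ) : ℂ) with hx
  have hxn : ∀ k, ‖x k‖ ≤ M / 20 := by
    intro k
    rw [hx, norm_mul, norm_I, one_mul, norm_real, Real.norm_eq_abs, abs_mul,
      abs_of_pos (show (0 : ℝ) < 2 by norm_num)]
    have h1 := Complex.abs_re_le_norm (a * ZMod.stdAddChar k)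
    rw [norm_mul, AddChar.norm_apply, mul_one] at h1
    linarith
  have h2 : VV ‖a‖ M = (∑ k : ZMod M, ∑ m ∈ Finset.range M, x k ^ m / (m.factorial : ℂ)) /
      (M : ℂ) := by
    unfold VV
    rw [Finset.sum_comm, Finset.sum_div]
    apply Finset.sum_congr rfl
    intro m hm
    rw [Finset.mem_range] at hm
    have h3 := mean_pow M a m hm
    rw [← Finset.sum_div, div_mul_eq_mul_div, ← h3, div_div, div_div, mul_comm (M : ℂ)]
  have h4 : jc M a = (∑ k : ZMod M, exp (x k)) / (M : ℂ) := rfl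
  rw [h2, h4, ← sub_div, ← Finset.sum_sub_distrib, norm_div, Complex.norm_natCast,
    div_le_iff₀ hMr]
  refine (norm_sum_le _ _).trans ?_
  refine (Finset.sum_le_card_nsmul _ _ δ fun k _ => ?_).trans ?_
  · exact exp_near M (x k) (hxn k) M (by linarith)
  · rw [Finset.card_univ, ZMod.card, nsmul_eq_mul, mul_comm]

theorem jc_one (M : ℕ) [NeZero M] (a : ℂ) : ‖jc M a‖ ≤ 1 := by
  have hMr : (0 : ℝ) < M := Nat.cast_pos.2 (NeZero.pos M)
  unfold jc
  rw [norm_div, Complex.norm_natCast, div_le_iff₀ hMr]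
  refine (norm_sum_le _ _).trans ?_
  refine (Finset.sum_le_card_nsmul _ _ 1 fun k _ => ?_).trans ?_
  · rw [mul_comm, Complex.norm_exp_ofReal_mul_I]
  · rw [Finset.card_univ, ZMod.card, nsmul_eq_mul, mul_comm]

theorem jcb : JcbStmt := by
  refine ⟨22, by norm_num, ?_⟩
  intro M _ a ha
  have hMr : (0 : ℝ) < M := Nat.cast_pos.2 (NeZero.pos M)
  set t : ℝ := ‖a‖ with ht
  have ht0 : 0 ≤ t := norm_nonneg a
  have hpow : (1 + t) ^ (-(1 / 2 : ℝ)) = 1 / Real.sqrt (1 + t) := by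
    rw [Real.rpow_neg (by linarith), ← Real.sqrt_eq_rpow, one_div]
  rw [hpow]
  have hs : 0 < Real.sqrt (1 + t) := Real.sqrt_pos.2 (by linarith)
  have hs1 : 1 ≤ Real.sqrt (1 + t) := Real.one_le_sqrt.2 (by linarith)
  rcases le_or_gt 1 t with h1 | h1
  · -- `t ≥ 1`
    have e1 := jc_VV M a ha
    have e2 := jb_VV M t (by rw [abs_of_nonneg ht0]; exact ha)
    have e3 := jb_le h1
    have e4 : ‖jc M a‖ ≤ 7 / Real.sqrt t + 8 * Real.exp (-((M : ℝ) / 4)) := by
      have h2 : jc M a = (jc M a - VV t M) - (jb t 0 - VV t M) + jb t 0 := by ring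
      rw [h2]
      have h3 := norm_add_le ((jc M a - VV t M) - (jb t 0 - VV t M)) (jb t 0)
      have h4 := norm_sub_le (jc M a - VV t M) (jb t 0 - VV t M)
      linarith
    have e5 : Real.exp (-((M : ℝ) / 4)) ≤ 1 / Real.sqrt (1 + t) := by
      rw [Real.exp_neg, inv_eq_one_div]
      apply one_div_le_one_div_of_le hs
      calc Real.sqrt (1 + t) ≤ Real.sqrt (1 + t) * Real.sqrt (1 + t) := by
            nlinarith
        _ = 1 + t := Real.mul_self_sqrt (by linarith)
        _ ≤ (M : ℝ) / 4 + 1 := by linarith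
        _ ≤ _ := Real.add_one_le_exp _
    have e6 : 7 / Real.sqrt t ≤ 14 / Real.sqrt (1 + t) := by
      have hst : 0 < Real.sqrt t := Real.sqrt_pos.2 (by linarith)
      rw [div_le_div_iff₀ hst hs]
      have h5 : Real.sqrt (1 + t) ≤ 2 * Real.sqrt t := by
        have h6 : Real.sqrt (1 + t) ≤ Real.sqrt (2 ^ 2 * t) := Real.sqrt_le_sqrt (by linarith)
        rw [Real.sqrt_mul (by norm_num), Real.sqrt_sq (by norm_num)] at h6
        exact h6
      linarith
    have e7 : (22 : ℝ) * (1 / Real.sqrt (1 + t)) = 14 / Real.sqrt (1 + t) +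
        8 * (1 / Real.sqrt (1 + t)) := by ring
    rw [e7]
    linarith
  · refine (jc_one M a).trans ?_
    rw [mul_one_div, le_div_iff₀ hs, one_mul]
    have h2 : Real.sqrt (1 + t) ≤ Real.sqrt (2 ^ 2) := Real.sqrt_le_sqrt (by linarith)
    rw [Real.sqrt_sq (by norm_num)] at h2
    linarith

end Pool.Agent.LE.QF.H32
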