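import Pool.Agent.LE.StmtsQF

/-!
# Squad LQF, row JMA: algebra of matrix jets
-/

set_option autoImplicit false
set_option linter.unusedSectionVars false

open MeasureTheory ProbabilityTheory Function Filter

open scoped ENNReal BigOperators Topology NNReal ComplexOrder Matrix

noncomputable section

namespace Pool.Agent.LE.QF.H32

section

variable {ι : Type} [Fintype ι] [DecidableEq ι] {𝕜 : Type} [RCLike 𝕜] {q : ℝ × (ι → ℝ)}

theorem HJ_eq {F : ℝ × (ι → ℝ) → 𝕜} {v v' l l' : 𝕜} {g g' : ι → 𝕜} (h : HJ F q v g l)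
    (hv : v = v') (hg : ∀ c, g c = g' c) (hl : l = l') : HJ F q v' g' l' := by
  subst hv
  subst hl
  have : g = g' := funext hg
  subst this
  exact h

theorem HM_eq {m n : Type} {F : ℝ × (ι → ℝ) → Matrix m n 𝕜} {v v' l l' : Matrix m n 𝕜}
    {g g' : ι → Matrix m n 𝕜} (h : HM F q v g l)
    (hv : v = v') (hg : ∀ c, g c = g' c) (hl : l = l') : HM F q v' g' l' := by
  subst hv
  subst hl
  have : g = g' := funext hg
  subst this
  exact h

theorem HM_mul (hJ : JalStmt) {a b n : Type} [Fintype b] {F : ℝ × (ι → ℝ) → Matrix a b 𝕜}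
    {H : ℝ × (ι → ℝ) → Matrix b n 𝕜} {v l : Matrix a b 𝕜} {v' l' : Matrix b n 𝕜}
    {g : ι → Matrix a b 𝕜} {g' : ι → Matrix b n 𝕜} (hF : HM F q v g l) (hH : HM H q v' g' l') :
    HM (fun r => F r * H r) q (v * v') (fun c => v * g' c + g c * v')
      (v * l' + l * v' + ∑ c, g c * g' c) := by
  obtain ⟨-, -, hmul, -, -, hsum, -, -⟩ := hJ ι 𝕜 q
  intro i j
  have h1 := hsum b Finset.univ (fun k r => F r i k * H r k j) (fun k => v i k * v' k j)
    (fun k => v i k * l' k j + l i k * v' k j + ∑ c, g c i k * g' c k j)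
    (fun k c => v i k * g' c k j + g c i k * v' k j) (fun k _ => by
      have h2 := (hmul _ _ _ _ _ _ _ _ (hF i k) (hH k j)).2.2
      exact h2)
  refine HJ_eq (F := fun r => (F r * H r) i j) h1 rfl (fun c => ?_) ?_
  · rw [Finset.sum_add_distrib]
    rfl
  · rw [Finset.sum_add_distrib, Finset.sum_add_distrib, Finset.sum_comm]
    simp only [Matrix.add_apply, Matrix.sum_apply, Matrix.mul_apply]

theorem HM_const (hJ : JalStmt) {a b : Type} (v : Matrix a b 𝕜) :
    HM (fun _ => v) q v (fun _ => 0) 0 := by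
  obtain ⟨hc, -⟩ := hJ ι 𝕜 q
  intro i j
  exact hc (v i j)

/-- uniqueness -/
theorem HM_uniq (hJ : JalStmt) {a b : Type} {F H : ℝ × (ι → ℝ) → Matrix a b 𝕜}
    {v l : Matrix a b 𝕜} {v' l' : Matrix a b 𝕜}
    {g : ι → Matrix a b 𝕜} {g' : ι → Matrix a b 𝕜} (hF : HM F q v g l) (hH : HM H q v' g' l')
    (he : F =ᶠ[𝓝 q] H) : v = v' ∧ (∀ c, g c = g' c) ∧ l = l' := by
  obtain ⟨-, -, -, -, -, -, -, hu⟩ := hJ ι 𝕜 q
  have key : ∀ i j, v i j = v' i j ∧ (fun c => g c i j) = (fun c => g' c i j) ∧ l i j = l' i j := by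
    intro i j
    refine hu _ _ _ _ _ _ _ _ (hF i j) (hH i j) ?_
    filter_upwards [he] with r hr
    rw [hr]
  refine ⟨?_, fun c => ?_, ?_⟩
  · ext i j
    exact (key i j).1
  · ext i j
    exact congrFun (key i j).2.1 c
  · ext i j
    exact (key i j).2.2

section inv

variable {n : Type} [Fintype n] [DecidableEq n]

theorem det_cd {F : ℝ × (ι → ℝ) → Matrix n n 𝕜} (hF : ∀ i j, ContDiffAt ℝ 2 (fun r => F r i j) q) :
    ContDiffAt ℝ 2 (fun r => (F r).det) q := by
  simp only [Matrix.det_apply]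
  apply ContDiffAt.sum
  intro σ _
  apply ContDiffAt.const_smul
  exact contDiffAt_prod fun i _ => hF _ _

theorem inv_cd {F : ℝ × (ι → ℝ) → Matrix n n 𝕜} (hF : ∀ i j, ContDiffAt ℝ 2 (fun r => F r i j) q)
    (hd : (F q).det ≠ 0) (i j : n) : ContDiffAt ℝ 2 (fun r => (F r)⁻¹ i j) q := by
  have h1 : (fun r => (F r)⁻¹ i j) = fun r => ((F r).det)⁻¹ *
      ((F r).updateRow j (Pi.single i 1)).det := by
    funext r
    rw [Matrix.inv_def, Matrix.smul_apply, Ring.inverse_eq_inv', Matrix.adjugate_apply, smul_eq_mul]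
  rw [h1]
  refine ContDiffAt.mul ((det_cd hF).inv hd) (det_cd fun a b => ?_)
  by_cases h : a = j
  · subst h
    simp only [Matrix.updateRow_self]
    exact contDiffAt_const
  · simp only [Matrix.updateRow_ne h]
    exact hF a b

theorem HM_inv (hJ : JalStmt) {F : ℝ × (ι → ℝ) → Matrix n n 𝕜} {v l : Matrix n n 𝕜}
    {g : ι → Matrix n n 𝕜} (hF : HM F q v g l) (hv : IsUnit v.det) :
    HM (fun r => (F r)⁻¹) q v⁻¹ (fun c => -(v⁻¹ * g c * v⁻¹))
      (-(v⁻¹ * l * v⁻¹) + ∑ c, v⁻¹ * g c * v⁻¹ * g c * v⁻¹) := by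
  have hFq : F q = v := by
    ext i j
    exact (hF i j).vl
  have hd : (F q).det ≠ 0 := by
    rw [hFq]
    exact hv.ne_zero
  have hcd : ∀ i j, ContDiffAt ℝ 2 (fun r => F r i j) q := fun i j => (hF i j).sm
  have hK : HM (fun r => (F r)⁻¹) q v⁻¹ (fun c => Matrix.of fun i j => dC c (fun r => (F r)⁻¹ i j) q)
      (Matrix.of fun i j => LL (fun r => (F r)⁻¹ i j) q) := by
    intro i j
    refine ⟨inv_cd hcd hd i j, ?_, fun c => rfl, rfl⟩
    show (F q)⁻¹ i j = v⁻¹ i j
    rw [hFq]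
  set g' : ι → Matrix n n 𝕜 := fun c => Matrix.of fun i j => dC c (fun r => (F r)⁻¹ i j) q with hg'
  set l' : Matrix n n 𝕜 := Matrix.of fun i j => LL (fun r => (F r)⁻¹ i j) q with hl'
  have hP := HM_mul hJ hF hK
  have hev : (fun r => F r * (F r)⁻¹) =ᶠ[𝓝 q] fun _ => (1 : Matrix n n 𝕜) := by
    have hc : ContinuousAt (fun r => (F r).det) q := (det_cd hcd).continuousAt
    filter_upwards [hc.eventually_ne hd] with r hr
    exact Matrix.mul_nonsing_inv _ (IsUnit.mk0 _ hr)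
  obtain ⟨-, e1, e2⟩ := HM_uniq hJ hP (HM_const hJ (1 : Matrix n n 𝕜)) hev
  have hl0 : v⁻¹ * v = 1 := Matrix.nonsing_inv_mul v hv
  have f1 : ∀ c, g' c = -(v⁻¹ * g c * v⁻¹) := by
    intro c
    have h3 := congrArg (fun z => v⁻¹ * z) (e1 c)
    simp only [mul_add, mul_zero] at h3
    rw [← Matrix.mul_assoc, hl0, Matrix.one_mul, ← Matrix.mul_assoc] at h3
    exact eq_neg_of_add_eq_zero_left h3
  have f2 : l' = -(v⁻¹ * l * v⁻¹) + ∑ c, v⁻¹ * g c * v⁻¹ * g c * v⁻¹ := by
    have h3 := congrArg (fun z => v⁻¹ * z) e2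
    simp only [mul_add, mul_zero] at h3
    rw [← Matrix.mul_assoc, hl0, Matrix.one_mul, ← Matrix.mul_assoc, Finset.mul_sum] at h3
    have h4 : ∀ c ∈ Finset.univ, v⁻¹ * (g c * g' c) = -(v⁻¹ * g c * v⁻¹ * g c * v⁻¹) := by
      intro c _
      rw [f1 c]
      simp only [Matrix.mul_neg, Matrix.mul_assoc]
    rw [Finset.sum_congr rfl h4, Finset.sum_neg_distrib] at h3
    rw [add_assoc] at h3
    have h5 := eq_neg_of_add_eq_zero_left h3
    rw [h5, neg_add, neg_neg]
  exact HM_eq hK rfl f1 f2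

/-- the derivative of the power -/
def GG (v : Matrix n n 𝕜) (g : Matrix n n 𝕜) (k : ℕ) : Matrix n n 𝕜 :=
  ∑ i ∈ Finset.range k, v ^ i * g * v ^ (k - 1 - i)

theorem GG_succ (v g : Matrix n n 𝕜) (k : ℕ) : GG v g (k + 1) = v * GG v g k + g * v ^ k := by
  unfold GG
  rw [Finset.sum_range_succ', Finset.mul_sum]
  congr 1
  · apply Finset.sum_congr rfl
    intro i _
    have : k + 1 - 1 - (i + 1) = k - 1 - i := by omega
    rw [this, pow_succ']
    simp only [Matrix.mul_assoc]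
  · rw [pow_zero, Matrix.one_mul]
    rfl

theorem HM_pow (hJ : JalStmt) {F : ℝ × (ι → ℝ) → Matrix n n 𝕜} {v l : Matrix n n 𝕜}
    {g : ι → Matrix n n 𝕜} (hF : HM F q v g l) (k : ℕ) :
    HM (fun r => F r ^ k) q (v ^ k) (fun c => GG v (g c) k)
      (GG v l k + ∑ c, ∑ i ∈ Finset.range k, v ^ i * g c * GG v (g c) (k - 1 - i)) := by
  induction k with
  | zero =>
    refine HM_eq (F := fun r => F r ^ 0) (v := 1) (l := 0) (g := fun _ => 0) ?_ ?_ ?_ ?_
    · have := HM_const hJ (q := q) (1 : Matrix n n 𝕜)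
      simpa using this
    · rw [pow_zero]
    · intro c
      simp [GG]
    · simp [GG]
  | succ k ih =>
    have h1 := HM_mul hJ hF ih
    have h2 : (fun r => F r ^ (k + 1)) = fun r => F r * F r ^ k := by
      funext r
      rw [pow_succ']
    rw [h2]
    refine HM_eq h1 (pow_succ' v k).symm (fun c => (GG_succ v (g c) k).symm) ?_
    rw [GG_succ, Matrix.mul_add, Finset.mul_sum]
    have h3 : ∀ c, ∑ i ∈ Finset.range (k + 1), v ^ i * g c * GG v (g c) (k + 1 - 1 - i) =
        v * (∑ i ∈ Finset.range k, v ^ i * g c * GG v (g c) (k - 1 - i)) + g c * GG v (g c) k := by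
      intro c
      rw [Finset.sum_range_succ', Finset.mul_sum]
      congr 1
      · apply Finset.sum_congr rfl
        intro i _
        have : k + 1 - 1 - (i + 1) = k - 1 - i := by omega
        rw [this, pow_succ']
        simp only [Matrix.mul_assoc]
      · rw [pow_zero, Matrix.one_mul]
        rfl
    simp only [h3]
    rw [Finset.sum_add_distrib]
    abel

theorem tr_cyc (v g : Matrix n n 𝕜) (i j : ℕ) :
    Matrix.trace (v ^ i * g * v ^ j) = Matrix.trace (v ^ (i + j) * g) := by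
  rw [Matrix.trace_mul_comm, ← Matrix.mul_assoc, ← pow_add, add_comm]

theorem tr_GG (v g : Matrix n n 𝕜) (k : ℕ) :
    Matrix.trace (GG v g k) = k * Matrix.trace (v ^ (k - 1) * g) := by
  unfold GG
  rw [Matrix.trace_sum]
  have h : ∀ i ∈ Finset.range k, Matrix.trace (v ^ i * g * v ^ (k - 1 - i)) =
      Matrix.trace (v ^ (k - 1) * g) := by
    intro i hi
    rw [Finset.mem_range] at hi
    rw [tr_cyc]
    congr 3
    omega
  rw [Finset.sum_congr rfl h, Finset.sum_const, Finset.card_range, nsmul_eq_mul]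

theorem tri_sum (T : ℕ → 𝕜) (m : ℕ) :
    ∑ i ∈ Finset.range (m + 1), ∑ j ∈ Finset.range (m - i), T j =
      ∑ j ∈ Finset.range m, ((m : 𝕜) - j) * T j := by
  induction m with
  | zero => simp
  | succ m ih =>
    rw [Finset.sum_range_succ']
    have h1 : ∀ i ∈ Finset.range (m + 1), ∑ j ∈ Finset.range (m + 1 - (i + 1)), T j =
        ∑ j ∈ Finset.range (m - i), T j := by
      intro i _
      rw [Nat.add_sub_add_right]
    rw [Finset.sum_congr rfl h1, ih, Nat.sub_zero]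
    rw [Finset.sum_range_succ (fun j => (((m + 1 : ℕ) : 𝕜) - j) * T j)]
    rw [Finset.sum_range_succ (fun j => T j)]
    push_cast
    have h2 : ∀ j ∈ Finset.range m, ((m : 𝕜) + 1 - j) * T j = ((m : 𝕜) - j) * T j + T j := by
      intro j _
      ring
    rw [Finset.sum_congr rfl h2, Finset.sum_add_distrib]
    ring

theorem sym_sum (T : ℕ → 𝕜) (m : ℕ) (hT : ∀ j < m, T (m - 1 - j) = T j) :
    ∑ j ∈ Finset.range m, ((m : 𝕜) - j) * T j =
      ((m : 𝕜) + 1) / 2 * ∑ j ∈ Finset.range m, T j := by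
  have h1 : ∑ j ∈ Finset.range m, ((m : 𝕜) - j) * T j =
      ∑ j ∈ Finset.range m, ((j : 𝕜) + 1) * T j := by
    rw [← Finset.sum_range_reflect]
    apply Finset.sum_congr rfl
    intro j hj
    rw [Finset.mem_range] at hj
    rw [hT j hj]
    have h2 : ((m - 1 - j : ℕ) : 𝕜) = (m : 𝕜) - 1 - j := by
      have : m = (m - 1 - j) + 1 + j := by omega
      have h3 : (m : 𝕜) = ((m - 1 - j : ℕ) : 𝕜) + 1 + j := by
        exact_mod_cast congrArg (fun z : ℕ => (z : 𝕜)) this
      rw [h3]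
      ring
    rw [h2]
    ring
  have h3 : ∑ j ∈ Finset.range m, ((m : 𝕜) - j) * T j + ∑ j ∈ Finset.range m, ((j : 𝕜) + 1) * T j =
      ((m : 𝕜) + 1) * ∑ j ∈ Finset.range m, T j := by
    rw [← Finset.sum_add_distrib, Finset.mul_sum]
    apply Finset.sum_congr rfl
    intro j _
    ring
  rw [← h1] at h3
  linear_combination h3 / 2

theorem tr_pow (hJ : JalStmt) {F : ℝ × (ι → ℝ) → Matrix n n 𝕜} {v l : Matrix n n 𝕜}
    {g : ι → Matrix n n 𝕜} (hF : HM F q v g l) (k : ℕ) (hk : 2 ≤ k) :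
    HJ (fun r => Matrix.trace (F r ^ k)) q (Matrix.trace (v ^ k))
      (fun c => k * Matrix.trace (v ^ (k - 1) * g c))
      (k * Matrix.trace (v ^ (k - 1) * l) +
        k / 2 * ∑ c, ∑ i ∈ Finset.range (k - 1),
          Matrix.trace (g c * v ^ i * g c * v ^ (k - 2 - i))) := by
  obtain ⟨-, -, -, -, -, hsum, -, -⟩ := hJ ι 𝕜 q
  have hP := HM_pow hJ hF k
  have h1 := hsum n Finset.univ (fun i r => (F r ^ k) i i) (fun i => (v ^ k) i i)
    (fun i => (GG v l k + ∑ c, ∑ i ∈ Finset.range k,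
      v ^ i * g c * GG v (g c) (k - 1 - i)) i i) (fun i c => GG v (g c) k i i)
    (fun i _ => hP i i)
  refine HJ_eq (F := fun r => Matrix.trace (F r ^ k)) h1 rfl (fun c => ?_) ?_
  · exact tr_GG v (g c) k
  · show Matrix.trace (GG v l k + ∑ c, ∑ i ∈ Finset.range k,
      v ^ i * g c * GG v (g c) (k - 1 - i)) = _
    rw [Matrix.trace_add, tr_GG, Matrix.trace_sum]
    congr 1
    rw [Finset.mul_sum]
    apply Finset.sum_congr rfl
    intro c _
    rw [Matrix.trace_sum]
    obtain ⟨m, rfl⟩ : ∃ m, k = m + 1 := ⟨k - 1, by omega⟩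
    have e1 : m + 1 - 1 = m := rfl
    rw [e1]
    set T : ℕ → 𝕜 := fun i => Matrix.trace (g c * v ^ i * g c * v ^ (m + 1 - 2 - i)) with hT
    have h2 : ∀ i ∈ Finset.range (m + 1), Matrix.trace (v ^ i * g c * GG v (g c) (m - i)) =
        ∑ j ∈ Finset.range (m - i), T j := by
      intro i _
      unfold GG
      rw [Finset.mul_sum, Matrix.trace_sum]
      apply Finset.sum_congr rfl
      intro j hj
      rw [Finset.mem_range] at hj
      have e2 : v ^ i * g c * (v ^ j * g c * v ^ (m - i - 1 - j)) =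
          v ^ i * (g c * v ^ j * g c * v ^ (m - i - 1 - j)) := by
        simp only [Matrix.mul_assoc]
      rw [e2, Matrix.trace_mul_comm, Matrix.mul_assoc _ _ (v ^ i), ← pow_add]
      have e3 : m - i - 1 - j + i = m + 1 - 2 - j := by omega
      rw [e3]
    rw [Finset.sum_congr rfl h2, tri_sum, sym_sum]
    · push_cast
      rfl
    · intro j hj
      show Matrix.trace (g c * v ^ (m - 1 - j) * g c * v ^ (m + 1 - 2 - (m - 1 - j))) =
        Matrix.trace (g c * v ^ j * g c * v ^ (m + 1 - 2 - j))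
      have e4 : m + 1 - 2 - (m - 1 - j) = j := by omega
      have e5 : m + 1 - 2 - j = m - 1 - j := by omega
      rw [e4, e5]
      rw [Matrix.mul_assoc (g c * v ^ (m - 1 - j)), Matrix.trace_mul_comm]
      simp only [Matrix.mul_assoc]

end inv

end

theorem jma (hJ : JalStmt) : JmaStmt := by
  intro ι _ _ 𝕜 _ q
  refine ⟨fun a b n _ F H v l v' l' g g' hF hH => HM_mul hJ hF hH, ?_⟩
  intro n _ _ F v l g hF
  exact ⟨fun hv => HM_inv hJ hF hv, fun k hk => tr_pow hJ hF k hk⟩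

end Pool.Agent.LE.QF.H32
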